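import Pool.Agent.helper16.EXT.Spec3T

set_option autoImplicit false

/-!
# Row ft3:IM0 of project EXT, block I: only types `≥ 0`
-/

open Finset

namespace Pool.Agent.EXT

open Pool.Agent.EXC

theorem IM0 (hIC0 : IC0_stmt) (hIFN : IFN_stmt) (hIMF : IMF_stmt) (hTFS : TFS_stmt) (hPCS : PCS_stmt) (hESF : ESF_stmt)
    (hGFX : GFX_stmt) : IM0_stmt := by
  intro K _ _ τ hτ x hRA hty a b hExa hExb hIm hTp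
  have hbeta := (f_NBR 6 C6 1 th ![0, 2, 3, 4, 5] f_DE6.2).1
  have h1τ : τ (1 : K) = 1 := map_one τ
  obtain ⟨G1, G2⟩ := hGFX K τ hτ
  obtain ⟨I2, I3, I4, _⟩ := hIMF K τ hτ x hRA
  have T := hTFS K τ hτ
  obtain ⟨Ga1, Ga2, Ga3, Ga4, Ga5⟩ := G2 a hExa
  have hXtrb := ((f_EXF 6 C6 K hbeta).2.2.1 b ((hESF K τ hτ).2 b hExb).1).1
  obtain ⟨h, hhG, hhX⟩ := Ga1 1 h1τ
  obtain ⟨v, hvτ, hv⟩ := (hIm ⟨h, hhG⟩).1 ⟨1, h1τ, hhX⟩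
  have hv0 : v ≠ 0 := by
    intro hv0
    have h1 : x (⟨h, hhG⟩ : GF τ) = 1 := by
      apply Subtype.ext
      apply Equiv.ext
      intro w
      apply Subtype.ext
      have h2 := hv w
      rw [hv0] at h2
      rw [h2]
      simp [xe]
    have h2 : (⟨h, hhG⟩ : GF τ) = 1 := by
      apply x.injective
      rw [h1, map_one]
    have h3 : h = 1 := congrArg Subtype.val h2
    have h4 : IsF τ a 0 h := by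
      intro w
      rw [h3]
      simp [xe]
    exact one_ne_zero (Ga4 1 0 h hhX h4)
  have hb'X : IsF τ (v • b) 1 ((x (⟨h, hhG⟩ : GF τ) : GF τ) : Equiv.Perm (LT τ)) := by
    intro w
    rw [((f_XAU 6 C6 K b hXtrb).2.2.2 v).2 1 w, mul_one]
    exact hv w
  have hTp' : TpS τ a (v • b) 0 := by
    have h1 := (T a b 0 hTp).2.2.2.2.1 1 v h1τ hvτ one_ne_zero hv0
    rwa [one_smul] at h1
  have hIm' : ImF τ x a (v • b) := by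
    have h1 := I4 a b 1 v hExa hExb h1τ hvτ one_ne_zero hv0 hIm
    rwa [one_smul] at h1
  obtain ⟨f, hExf, hTaf, hTbf, hfm⟩ := (hIFN K τ hτ a (v • b)).1 hTp'
  obtain ⟨k, hkG, hkX⟩ := (G2 f hExf).1 1 h1τ
  obtain ⟨d, hExd, hImd⟩ := hRA f hExf
  obtain ⟨m, _, _, hTm⟩ := hPCS K τ hτ f d hExf hExd
  have hm0 : 0 ≤ m := hty f d m hExf hExd hImd hTm
  have c1 : (⟨h, hhG⟩ : GF τ) * x ⟨h, hhG⟩ = x ⟨h, hhG⟩ * ⟨h, hhG⟩ :=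
    ((T a (v • b) 0 hTp').2.2.2.2.2.2.2.2).2 le_rfl _ _ ⟨1, h1τ, hhX⟩ ⟨1, h1τ, hb'X⟩
  have c2 : (⟨h, hhG⟩ : GF τ) * ⟨k, hkG⟩ = ⟨k, hkG⟩ * ⟨h, hhG⟩ :=
    ((T a f 0 hTaf).2.2.2.2.2.2.2.2).2 le_rfl _ _ ⟨1, h1τ, hhX⟩ ⟨1, h1τ, hkX⟩
  have c3 : x (⟨h, hhG⟩ : GF τ) * x ⟨k, hkG⟩ = x ⟨k, hkG⟩ * x ⟨h, hhG⟩ := by
    rw [← map_mul, ← map_mul, c2]
  have c4 : (⟨k, hkG⟩ : GF τ) * x ⟨k, hkG⟩ = x ⟨k, hkG⟩ * ⟨k, hkG⟩ :=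
    ((T f d m hTm).2.2.2.2.2.2.2.2).2 hm0 _ _ ⟨1, h1τ, hkX⟩ ((hImd ⟨k, hkG⟩).1 ⟨1, h1τ, hkX⟩)
  have key := hIC0 K τ hτ (v • b) f ⟨h, hhG⟩ (x ⟨h, hhG⟩) ⟨k, hkG⟩ (x ⟨k, hkG⟩)
    hTbf hfm hb'X hkX c1 c2 c3 c4
  refine A3.g_ZGA (GF τ) x ⟨h, hhG⟩ ⟨k, hkG⟩ _ 3 ?_ key
  exact Subgroup.mul_mem _ (Subgroup.subset_closure (Set.mem_insert _ _))
    (Subgroup.subset_closure (Set.mem_insert_of_mem _ (Set.mem_singleton _)))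

end Pool.Agent.EXT
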